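import Pool.Agent.W2helper63.LG.T

set_option autoImplicit false

/-!
# Integers `a` for which `n² + a` has no small prime values, although many are predicted

For at least `X^(1-ε)` integers `a`, `|a| ≤ X`, of each sign none of the numbers `|n² + a|`, `1 ≤ n ≤ N`, is a prime,
`N = c log X (log₂ X)³ (log₄ X)² / (log₃ X)⁴`, although the number of primes which the formula of Hardy and Littlewood
predicts, with the constant `h_a`, tends to infinity.

Method. The polynomial `n² + a` has the zeros `ρ` and `-ρ` modulo `p` if `-a ≡ ρ²`, and the class of `a` can be chosen for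
every prime `p ≤ ε log X`. Choice of the classes (Erdős-Rankin, with two classes for every prime): for the medium primes
`-a ≡ h²`, where `h` is such that there are few `n ≤ N` for which both `h - n` and `h + n` have no medium prime factor (in
the mean over `h`; Chebyshev's bound and Rankin's bound for smooth numbers); for the small primes greedily the class
that removes most of the remaining `n` (a proportion `2 / (p + 1)`); for the large primes one of the survivors each. The
product `h_a`: the primes up to `ε log X` trivially, the primes between `ε log X` and `(log X)⁶` by a second moment over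
the class of `a` modulo the product of the primes up to `ε log X`, the rest by the large sieve (`Pool/Agent/R460/SC`,
starting files), for most `a` of the class in every interval of length `√X`. From the starting files also: the count of
the smooth numbers (`Pool/Agent/H398R2/RK`).
-/

namespace Pool.Agent.Results.MP_391708_nt.EmptyInitialSegments

open Finset Filter Topology

/-- `P_a(N)`: the number of the `1 ≤ n ≤ N` for which `|n² + a|` is a prime -/
def P (a : ℤ) (N : ℕ) : ℕ := #((Icc 1 N).filter (fun n : ℕ => Nat.Prime ((n : ℤ) ^ 2 + a).natAbs))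

/-- the product which defines `h_a`, over the odd primes `w ≤ z` (`jacobiSym (-a) w` is the Legendre symbol) -/
noncomputable def product (a : ℤ) (z : ℕ) : ℝ :=
  ∏ w ∈ (Icc 3 z).filter Nat.Prime, (1 - (jacobiSym (-a) w : ℝ) / ((w : ℝ) - 1))

/-- `h = h_a`: the product over the odd primes, in increasing order, converges to `h` -/
def IsConstant (a : ℤ) (h : ℝ) : Prop := Tendsto (product a) atTop (𝓝 h)

/-- `log X (log₂ X)³ (log₄ X)² / (log₃ X)⁴`, where `log₂`, `log₃`, `log₄` are the iterated logarithms -/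
noncomputable def len (X : ℝ) : ℝ :=
  Real.log X * Real.log (Real.log X) ^ 3 * Real.log (Real.log (Real.log (Real.log X))) ^ 2 /
    Real.log (Real.log (Real.log X)) ^ 4

/-- `-a` is not a square, `P_a(N) = 0`, indeed every number `n² + a`, `|n| ≤ N`, has a prime factor `p ≤ ε log X` with
`p < |n² + a|`, the product `h_a` converges, and the predicted number of the primes `|n² + a|`, `1 ≤ n ≤ N`, is at least
`c N / (log X log₂ X)`. -/
def NoSmallPrimes (ε c : ℝ) (X N : ℕ) (a : ℤ) : Prop :=
  ¬ IsSquare (-a) ∧ P a N = 0 ∧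
  (∀ n : ℤ, |n| ≤ N → ∃ p : ℕ, p.Prime ∧ (p : ℝ) ≤ ε * Real.log X ∧ (p : ℤ) ∣ n ^ 2 + a ∧ (p : ℤ) < |n ^ 2 + a|) ∧
  ∃ h : ℝ, IsConstant a h ∧
    c * N / (Real.log X * Real.log (Real.log X)) ≤ h * ∑ n ∈ Icc 1 N, 1 / Real.log ((|(n : ℤ) ^ 2 + a| : ℤ) : ℝ)

open Classical in
/-- **No small prime values.** Let `len X = log X (log₂ X)³ (log₄ X)² / (log₃ X)⁴`; then `len X / (log X log₂ X) → ∞`. For
every `ε > 0` there is `c > 0` such that for all large `X` and every interval `(b, b + M]` in `[-X, X]` of length `M ≥ √X`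
there are at least `M / X^ε` integers `a` in the interval for which, with `N = c len X`, none of the numbers `|n² + a|`,
`1 ≤ n ≤ N`, is a prime, while the number of primes predicted by Hardy and Littlewood is at least
`c N / (log X log₂ X)`. (With `b = 0` or `b = -X` and `M = X`: at least `X^(1-ε)` such integers `a ≤ X`, and at least
`X^(1-ε)` such integers `a > -X`, `a < 0`.) -/
theorem result :
    Tendsto (fun X : ℝ => len X / (Real.log X * Real.log (Real.log X))) atTop atTop ∧
    ∀ ε : ℝ, 0 < ε → ∃ c : ℝ, 0 < c ∧ ∃ X₀ : ℕ, ∀ X : ℕ, X₀ ≤ X →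
      ∀ b : ℤ, ∀ M : ℕ, √X ≤ M → -(X : ℤ) ≤ b → b + M ≤ X →
        (M : ℝ) / (X : ℝ) ^ ε ≤ #((Ioc b (b + M)).filter (fun a : ℤ => NoSmallPrimes ε c X ⌊c * len X⌋₊ a)) := by
  refine ⟨Pool.Agent.W2helper63.LG.tends 3 (by norm_num), fun ε hε => ?_⟩
  obtain ⟨c, hc, X₀, h⟩ := Pool.Agent.W2helper63.LG.main ε hε
  -- `c len X ≥ 1` for large `X`
  have hev : ∀ᶠ X : ℝ in atTop, 1 ≤ c * len X := by
    have h1 := (Pool.Agent.W2helper63.LG.tends 3 (by norm_num)).eventually_ge_atTop (1 / c)
    have h2 := Real.tendsto_log_atTop.eventually_ge_atTop 1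
    have h3 := (Real.tendsto_log_atTop.comp Real.tendsto_log_atTop).eventually_ge_atTop 1
    filter_upwards [h1, h2, h3] with X g1 g2 g3
    simp only [Function.comp] at g3
    have g4 : 1 ≤ Real.log X * Real.log (Real.log X) := one_le_mul_of_one_le_of_one_le g2 g3
    rw [le_div_iff₀ (by linarith)] at g1
    have g5 : 1 / c ≤ len X := le_trans (le_mul_of_one_le_right (by positivity) g4) g1
    rw [div_le_iff₀ hc] at g5
    linarith
  obtain ⟨X₁, hX₁⟩ := eventually_atTop.1 ((tendsto_natCast_atTop_atTop (R := ℝ)).eventually hev)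
  refine ⟨c, hc, max X₀ X₁, fun X hX b M hM hb1 hb2 => ?_⟩
  refine ((h X ((le_max_left _ _).trans hX)).1 b M hM hb1 hb2).trans ?_
  apply Nat.cast_le.2
  apply card_le_card
  intro a ha
  rw [mem_filter] at ha ⊢
  obtain ⟨ha1, hsq, hdiv, hh, hlim, hpred⟩ := ha
  obtain ⟨N, hN⟩ : ∃ N : ℕ, N = ⌊c * len X⌋₊ := ⟨_, rfl⟩
  have h1 := hX₁ X ((le_max_right _ _).trans hX)
  have hmem : ∀ n : ℤ, |n| ≤ N → n ∈ Pool.Agent.W2helper63.LG.window 0 (c * len X) := by
    intro n hn
    rw [Pool.Agent.W2helper63.LG.mem_window, sub_zero]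
    have h8 : (N : ℝ) ≤ c * len X := by rw [hN]; exact Nat.floor_le (by linarith)
    have h9 : |(n : ℝ)| ≤ N := by exact_mod_cast hn
    linarith
  rw [← hN]
  have hdiv' : ∀ n : ℤ, |n| ≤ N → ∃ p : ℕ, p.Prime ∧ (p : ℝ) ≤ ε * Real.log X ∧ (p : ℤ) ∣ n ^ 2 + a ∧
      (p : ℤ) < |n ^ 2 + a| := fun n hn => hdiv n (hmem n hn)
  refine ⟨ha1, hsq, ?_, hdiv', hh, hlim, ?_⟩
  · unfold P
    rw [card_eq_zero, filter_eq_empty_iff]
    intro n hn hp
    rw [mem_Icc] at hn
    obtain ⟨q, hq, -, hq1, hq2⟩ := hdiv' (n : ℤ) (by rw [Nat.abs_cast]; exact_mod_cast hn.2)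
    have h6 : q ∣ ((n : ℤ) ^ 2 + a).natAbs := Int.natCast_dvd.1 hq1
    have h7 := (Nat.prime_dvd_prime_iff_eq hq hp).1 h6
    rw [Int.abs_eq_natAbs, h7] at hq2
    exact lt_irrefl _ hq2
  · have h5 := hpred ((Icc 1 N).image (fun n : ℕ => (n : ℤ))) (by
      intro n hn
      rw [mem_image] at hn
      obtain ⟨m, hm, rfl⟩ := hn
      rw [mem_Icc] at hm
      exact hmem m (by rw [Nat.abs_cast]; exact_mod_cast hm.2))
    have hinj : Set.InjOn (fun n : ℕ => (n : ℤ)) (Icc 1 N : Finset ℕ) := fun x _ y _ hxy => Int.ofNat_inj.1 hxy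
    rw [card_image_of_injOn hinj, Nat.card_Icc, Nat.add_sub_cancel] at h5
    unfold Pool.Agent.W2helper63.LG.predicted at h5
    rw [sum_image hinj] at h5
    exact h5

end Pool.Agent.Results.MP_391708_nt.EmptyInitialSegments
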