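import Pool.Agent.W2helper20.MQ.Asm

/-!
Irregularities of the primes `|n² + a|` with `n` just above `√(-a)`, in the manner of Maier.

For every `B > 1` and every small `ε` there are at least `X exp(-(log X)^ε)` integers
`-X ≤ a ≤ -1` for which the number of primes `|n² + a|` with `√(-a) < n ≤ ⌊√(-a)⌋ + H`,
`H` about `(log X)^B`, exceeds (falls short of) the number predicted by Hardy and Littlewood, with
the true constant `h_a`, by a constant factor. The irregularities can be confined to one scale.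

Method: rows `-a = (W t)² + W r`, `1 ≤ r ≤ 2t`, for a product `W` of primes from a block below a
power of `log X`. At `n = W t + i` one has `|n² + a| ≡ i² mod W`. The primes are counted by
the prime number theorem for the modulus `W` on average over `t`, uniformly in `i`; the constants
`h_a` have mean `1` on the rows, which is proved by expanding the product over the primes up to a
multiple of `log X` into Jacobi symbols, by a second moment for the middle primes and by duality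
for the others.
-/

set_option autoImplicit false

namespace Pool.Agent.Results.MP_391708_nt.MaierNearSquareRoot

open Finset Filter Topology

/-- the product over the odd primes `w ≤ z` of `1 - (-a | w) / (w - 1)` -/
noncomputable def hcut (a : ℤ) (z : ℕ) : ℝ :=
  ∏ w ∈ (Finset.range (z + 1)).filter (fun w => Nat.Prime w ∧ w ≠ 2),
    (1 - (jacobiSym (-a) w : ℝ) / ((w : ℝ) - 1))

/-- the constant `h_a`: the limit of the products `hcut a z` -/
noncomputable def h (a : ℤ) : ℝ := limUnder atTop (fun z : ℕ => hcut a z)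

/-- the number of `n` with `m < n ≤ N` such that `|n² + a|` is a prime -/
def P (a : ℤ) (m N : ℕ) : ℕ := #((Ioc m N).filter (fun n : ℕ => Nat.Prime ((n : ℤ) ^ 2 + a).natAbs))

/-- the sum of `1 / log |n² + a|` over `m < n ≤ N` -/
noncomputable def M (a : ℤ) (m N : ℕ) : ℝ := ∑ n ∈ Ioc m N, 1 / Real.log (|(n : ℤ) ^ 2 + a| : ℤ)

/-- the integral part of the square root of `|a|` -/
def rt (a : ℤ) : ℕ := Nat.sqrt a.natAbs

/-- the predicted number of primes `|n² + a|` with `⌊√|a|⌋ < n ≤ ⌊√|a|⌋ + H` -/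
noncomputable def pred (a : ℤ) (H : ℕ) : ℝ := h a * M a (rt a) (rt a + H)

/-- the number of these primes minus the predicted number -/
noncomputable def exc (a : ℤ) (H : ℕ) : ℝ := P a (rt a) (rt a + H) - pred a H

/-- `a` is negative, `-a` is not a square and the product `h_a` converges to a positive number -/
def Adm (X : ℕ) (a : ℤ) : Prop :=
  a ∈ Icc (-(X : ℤ)) (-1) ∧ ¬ IsSquare (-a) ∧ 0 < h a ∧
    Tendsto (fun z : ℕ => hcut a z) atTop (𝓝 (h a))

section rows

open Pool.Agent.W2helper20.MQ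

lemma hcut_row (K : ℕ) : (fun z : ℕ => hcut (-(K : ℤ)) z) =
    fun z => Pool.Agent.TH892.SW.HP (K : ℤ) z := by
  funext z
  unfold hcut Pool.Agent.TH892.SW.HP
  rw [neg_neg]

lemma h_row (K : ℕ) : h (-(K : ℤ)) = hl K := by
  unfold h hl
  rw [hcut_row]

lemma val_row {W t c i : ℕ} (hc : c < 2 * t) (hi : 1 ≤ i) :
    ((W * t + i : ℕ) : ℤ) ^ 2 + -((Kv W t c : ℕ) : ℤ) = ((qv W i t c : ℕ) : ℤ) := by
  have h1 : c + 1 ≤ 2 * t * i := by
    calc c + 1 ≤ 2 * t * 1 := by omega
      _ ≤ 2 * t * i := Nat.mul_le_mul_left _ hi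
  unfold Kv qv
  push_cast [Nat.cast_sub h1]
  ring

lemma rt_row {W t c : ℕ} (hW : 1 ≤ W) (hc : c < 2 * t) : rt (-((Kv W t c : ℕ) : ℤ)) = W * t := by
  unfold rt
  rw [Int.natAbs_neg, Int.natAbs_natCast, sqrt_Kv hW hc]

lemma shift_sum (m H : ℕ) (f : ℕ → ℝ) :
    ∑ n ∈ Ioc m (m + H), f n = ∑ i ∈ Icc 1 H, f (m + i) := by
  apply sum_nbij' (fun n => n - m) (fun i => m + i)
  · intro n hn
    rw [mem_Ioc] at hn
    rw [mem_Icc]
    omega
  · intro i hi
    rw [mem_Icc] at hi
    rw [mem_Ioc]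
    omega
  · intro n hn
    rw [mem_Ioc] at hn
    omega
  · intro i _
    omega
  · intro n hn
    rw [mem_Ioc] at hn
    congr 1
    omega

lemma M_row {W t c : ℕ} (hW : 1 ≤ W) (hc : c < 2 * t) (H : ℕ) :
    M (-((Kv W t c : ℕ) : ℤ)) (rt (-((Kv W t c : ℕ) : ℤ))) (rt (-((Kv W t c : ℕ) : ℤ)) + H) =
      Mn W H t c := by
  rw [rt_row hW hc]
  unfold M Mn
  rw [shift_sum]
  apply sum_congr rfl
  intro i hi
  rw [mem_Icc] at hi
  rw [val_row hc hi.1, Nat.abs_cast, Int.cast_natCast]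

lemma P_row {W t c : ℕ} (hW : 1 ≤ W) (hc : c < 2 * t) (H : ℕ) :
    (P (-((Kv W t c : ℕ) : ℤ)) (rt (-((Kv W t c : ℕ) : ℤ))) (rt (-((Kv W t c : ℕ) : ℤ)) + H) : ℝ) =
      Pn W H t c := by
  rw [rt_row hW hc]
  unfold P Pn
  rw [card_filter]
  push_cast
  rw [shift_sum]
  apply sum_congr rfl
  intro i hi
  rw [mem_Icc] at hi
  have := val_row (W := W) hc hi.1
  push_cast at this ⊢
  rw [this, Int.natAbs_natCast]

lemma pred_row {W t c : ℕ} (hW : 1 ≤ W) (hc : c < 2 * t) (H : ℕ) :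
    pred (-((Kv W t c : ℕ) : ℤ)) H = Nx W H ⟨t, c⟩ := by
  unfold pred Nx
  rw [M_row hW hc, h_row]

lemma exc_row {W t c : ℕ} (hW : 1 ≤ W) (hc : c < 2 * t) (H : ℕ) :
    exc (-((Kv W t c : ℕ) : ℤ)) H = Dx W H ⟨t, c⟩ := by
  unfold exc Dx
  rw [P_row hW hc, pred_row hW hc]
  rfl

end rows

open Classical in
/-- **Irregularities of the primes `|n² + a|` near `√(-a)`, at one scale only.** For `B > 1`,
`ε > 0`, `η > 0` there is `κ > 0` such that for `C > 0` and for both signs `σ` there is `δ > 0`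
such that for all large `X` there are weights `ω a ≥ 0` with sum `1` and
`ω a ≤ exp((log X)^ε) / X`, on admissible `-X ≤ a ≤ -1`, with the following properties for every
`H ≥ (log X)^B`:
* the mean of `σ` times the excess is at least `δ` times the mean predicted number if
  `H ≤ (log X)^(B + κ)`;
* it is at least `-δ / C` times the mean predicted number if `H ≤ exp √(log X)`;
* the mean excess is at most `δ / C` times the mean predicted number in absolute value, if
  `(log X)^(B + η) ≤ H ≤ exp √(log X)`;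
* if `H ≤ (log X)^(B + κ)` then for at least `X exp(-(log X)^ε)` admissible `-X ≤ a ≤ -1` the
  number of primes `|n² + a|` with `⌊√(-a)⌋ < n ≤ ⌊√(-a)⌋ + H` is at least `1 + δ` times (`σ = 1`),
  respectively at most `1 - δ` times (`σ = -1`) the predicted number. -/
theorem result (B ε η : ℝ) (hB : 1 < B) (hε : 0 < ε) (hη : 0 < η) : ∃ κ : ℝ, 0 < κ ∧
    ∀ C σ : ℝ, 0 < C → (σ = 1 ∨ σ = -1) → ∃ δ : ℝ, 0 < δ ∧ ∃ X₀ : ℕ, ∀ X : ℕ, X₀ ≤ X →
      ∃ ω : ℤ → ℝ, (∀ a, 0 ≤ ω a ∧ ω a ≤ Real.exp (Real.log X ^ ε) / X) ∧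
        (∀ a, ω a ≠ 0 → Adm X a) ∧ ∑ a ∈ Icc (-(X : ℤ)) (-1), ω a = 1 ∧
        ∀ H : ℕ, Real.log X ^ B ≤ H →
          (H ≤ Real.log X ^ (B + κ) →
            δ * ∑ a ∈ Icc (-(X : ℤ)) (-1), ω a * pred a H ≤
              σ * ∑ a ∈ Icc (-(X : ℤ)) (-1), ω a * exc a H) ∧
          (H ≤ Real.exp (√(Real.log X)) →
            -(δ / C) * ∑ a ∈ Icc (-(X : ℤ)) (-1), ω a * pred a H ≤
              σ * ∑ a ∈ Icc (-(X : ℤ)) (-1), ω a * exc a H) ∧
          (Real.log X ^ (B + η) ≤ H → H ≤ Real.exp (√(Real.log X)) →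
            |∑ a ∈ Icc (-(X : ℤ)) (-1), ω a * exc a H| ≤
              δ / C * ∑ a ∈ Icc (-(X : ℤ)) (-1), ω a * pred a H) ∧
          (H ≤ Real.log X ^ (B + κ) →
            X * Real.exp (-(Real.log X ^ ε)) ≤
              #((Icc (-(X : ℤ)) (-1)).filter (fun a => Adm X a ∧ δ * pred a H ≤ σ * exc a H))) := by
  obtain ⟨κ, hκ, hmain⟩ := Pool.Agent.W2helper20.MQ.rowmain B ε η hB hε hη
  refine ⟨κ, hκ, fun C σ hC hσ => ?_⟩
  obtain ⟨δ, hδ, hev⟩ := hmain C σ hC hσ
  obtain ⟨X₀, hX₀⟩ := eventually_atTop.1 hev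
  refine ⟨δ, hδ, X₀, fun X hX => ?_⟩
  obtain ⟨W, G, w, hW, hG, hw, hw1, hH⟩ := hX₀ X hX
  -- the map to the integers
  obtain ⟨g, hg⟩ : ∃ g : (_ : ℕ) × ℕ → ℤ, g = fun x =>
      -((Pool.Agent.W2helper20.MQ.Kv W x.1 x.2 : ℕ) : ℤ) := ⟨_, rfl⟩
  have hgx : ∀ x, g x = -((Pool.Agent.W2helper20.MQ.Kv W x.1 x.2 : ℕ) : ℤ) := fun x => by rw [hg]
  have hinj : ∀ x ∈ G, ∀ y ∈ G, g x = g y → x = y := by
    intro x hx y hy he
    rw [hgx, hgx] at he
    have h1 : Pool.Agent.W2helper20.MQ.Kv W x.1 x.2 = Pool.Agent.W2helper20.MQ.Kv W y.1 y.2 := by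
      have := neg_injective he
      exact_mod_cast this
    obtain ⟨h2, h3⟩ := Pool.Agent.W2helper20.MQ.Kv_inj hW (hG x hx).1 (hG y hy).1 h1
    obtain ⟨x1, x2⟩ := x
    obtain ⟨y1, y2⟩ := y
    simp only at h2 h3
    subst h2 h3
    rfl
  have hadm : ∀ x ∈ G, Adm X (g x) := by
    intro x hx
    obtain ⟨h1, h2, h3, h4⟩ := hG x hx
    rw [mem_Icc] at h2
    rw [hgx]
    refine ⟨?_, ?_, ?_, ?_⟩
    · rw [mem_Icc]
      constructor <;> omega
    · rw [neg_neg]
      exact Pool.Agent.W2helper20.MQ.Kv_nsq hW h1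
    · rw [h_row]
      exact h3
    · rw [h_row, hcut_row]
      exact h4
  have hmaps : ∀ x ∈ G, g x ∈ Icc (-(X : ℤ)) (-1) := fun x hx => (hadm x hx).1
  have hsum : ∀ f : ℤ → ℝ, ∑ a ∈ Icc (-(X : ℤ)) (-1), (∑ x ∈ G.filter (fun x => g x = a), w x) * f a =
      ∑ x ∈ G, w x * f (g x) := by
    intro f
    rw [← sum_fiberwise_of_maps_to hmaps]
    apply sum_congr rfl
    intro a _
    rw [sum_mul]
    apply sum_congr rfl
    intro x hx
    rw [mem_filter] at hx
    rw [hx.2]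
  have hfib : ∀ a : ℤ, (G.filter (fun x => g x = a) = ∅) ∨
      ∃ x ∈ G, g x = a ∧ G.filter (fun x => g x = a) = {x} := by
    intro a
    by_cases hex : ∃ x ∈ G, g x = a
    · obtain ⟨x, hx, hxa⟩ := hex
      refine Or.inr ⟨x, hx, hxa, ?_⟩
      ext y
      rw [mem_filter, mem_singleton]
      constructor
      · rintro ⟨hy, hya⟩
        exact hinj y hy x hx (hya.trans hxa.symm)
      · rintro rfl
        exact ⟨hx, hxa⟩
    · left
      rw [filter_eq_empty_iff]
      intro x hx hxa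
      exact hex ⟨x, hx, hxa⟩
  refine ⟨fun a => ∑ x ∈ G.filter (fun x => g x = a), w x, ?_, ?_, ?_, ?_⟩
  · intro a
    rcases hfib a with h1 | ⟨x, hx, _, h1⟩
    · simp only [h1, sum_empty]
      exact ⟨le_rfl, by positivity⟩
    · simp only [h1, sum_singleton]
      exact hw x hx
  · intro a ha
    rcases hfib a with h1 | ⟨x, hx, hxa, _⟩
    · exfalso
      apply ha
      simp only [h1, sum_empty]
    · rw [← hxa]
      exact hadm x hx
  · have := hsum (fun _ => 1)
    simp only [mul_one] at this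
    rw [this, hw1]
  · intro H hHB
    have hpred : ∑ x ∈ G, w x * pred (g x) H = ∑ x ∈ G, w x * Pool.Agent.W2helper20.MQ.Nx W H x := by
      apply sum_congr rfl
      intro x hx
      rw [hgx, pred_row hW (hG x hx).1]
    have hexc : ∑ x ∈ G, w x * exc (g x) H = ∑ x ∈ G, w x * Pool.Agent.W2helper20.MQ.Dx W H x := by
      apply sum_congr rfl
      intro x hx
      rw [hgx, exc_row hW (hG x hx).1]
    rw [hsum (fun a => pred a H), hsum (fun a => exc a H), hpred, hexc]
    obtain ⟨a1, a2, a3, a4⟩ := hH H hHB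
    refine ⟨a1, a2, a3, fun h1 => (a4 h1).trans ?_⟩
    have hcard : #(G.filter (fun x => δ * Pool.Agent.W2helper20.MQ.Nx W H x ≤
        σ * Pool.Agent.W2helper20.MQ.Dx W H x)) ≤
        #((Icc (-(X : ℤ)) (-1)).filter (fun a => Adm X a ∧ δ * pred a H ≤ σ * exc a H)) := by
      apply card_le_card_of_injOn g
      · intro x hx
        rw [mem_coe, mem_filter] at hx
        rw [mem_coe, mem_filter]
        refine ⟨hmaps x hx.1, hadm x hx.1, ?_⟩
        rw [hgx, pred_row hW (hG x hx.1).1, exc_row hW (hG x hx.1).1]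
        exact hx.2
      · intro x hx y hy he
        rw [mem_coe, mem_filter] at hx hy
        exact hinj x hx.1 y hy.1 he
    exact_mod_cast hcard

end Pool.Agent.Results.MP_391708_nt.MaierNearSquareRoot
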