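import Pool.Agent.W2helper64.BH.Quad
import Pool.Agent.W2helper64.BQ.Th5
import Pool.Agent.W2helper64.SI.Fin

set_option autoImplicit false

/-!
# The Hardy-Littlewood formula for `n ^ 2 + b`, and the Bateman-Horn formula, in the random sieve model of
# Banks, Ford and Tao, with a power saving

For every prime `p` a residue class `a p` modulo `p` is chosen uniformly and independently. The random
set `R` consists of the natural numbers `n ≥ e ^ 2` which avoid the class `a p` for every prime `p` with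
`∏_(q ≤ p) (1 - 1 / q) ≥ 1 / log n`; this is the random sieve model for the primes of Banks, Ford and
Tao, in which the classes `0 mod p` of the sieve of Eratosthenes are replaced by random ones.

The formula of the problem for `n ^ 2 + b` has the constant `∏_w (1 - (-b | w) / (w - 1))` over the odd
primes `w`. With the class `a w` in the place of `0` the constant becomes the conditionally convergent
random product `∏_w (1 - (a w - b | w) / (w - 1))`. We prove that almost surely, for all integers `b`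
at the same time, this product converges to a positive number `h`, and the number of `n ≤ N` with
`n ^ 2 + b ∈ R` is `(h / 2) ∫_2^N dt / log t + O(N ^ (1 / 2 + ε))` for every `ε > 0`.

More generally, almost surely the formula of Bateman and Horn holds for all finite systems of distinct
nonconstant integer polynomials with positive leading coefficients at the same time, with the error
`O(x ^ (1 / 2 + ε))` for every `ε > 0`; and it holds in all intervals `(x, x + H]` with
`exp ((log x) ^ δ) ≤ H ≤ x`, for every `δ > 0`, with the error `H / (log x) ^ U` for every `U`.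

The proof is a recursion over the primes for the second moment of the number of survivors in an interval:
no expansion into tuples is used, and the sieving is done up to the very last prime.
-/

namespace Pool.Agent.Results.MP_391708_nt.RandomSieveBatemanHorn

open Filter MeasureTheory Polynomial Topology

/-- the product `V y = ∏_(p ≤ y, p prime) (1 - 1 / p)` -/
noncomputable def V (y : ℕ) : ℝ := ∏ p ∈ (Finset.Icc 1 y).filter Nat.Prime, (1 - 1 / (p : ℝ))

/-- the random set: all `n ≥ e ^ 2` outside the chosen class `a p` for every prime `p` with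
`V p ≥ 1 / log n` -/
def R (a : (p : Nat.Primes) → ZMod (p : ℕ)) : Set ℕ :=
  {n | Real.exp 2 ≤ n ∧ ∀ p : Nat.Primes, 1 ≤ V (p : ℕ) * Real.log n → ((n : ℕ) : ZMod (p : ℕ)) ≠ a p}

/-- the chosen classes `a p`, `p` prime, are independent and uniform modulo `p` -/
noncomputable def law : Measure ((p : Nat.Primes) → ZMod (p : ℕ)) :=
  Measure.infinitePi fun p : Nat.Primes => ProbabilityTheory.uniformOn (Set.univ : Set (ZMod (p : ℕ)))

/-- the primes `p` with `m ≤ p ≤ z` -/
def primes (m z : ℕ) : Finset Nat.Primes := (Finset.Icc m z).subtype Nat.Prime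

instance (p : Nat.Primes) : Fact (p : ℕ).Prime := ⟨p.2⟩

open Classical in
/-- the number of the residue classes `m` modulo `p` for which one of the values `f i m` lies in the
class `a p` -/
noncomputable def nu {g : ℕ} (f : Fin g → ℤ[X]) (a : (p : Nat.Primes) → ZMod (p : ℕ)) (p : Nat.Primes) : ℕ :=
  ((Finset.range (p : ℕ)).filter fun m : ℕ => ∃ i, (((f i).eval (m : ℤ) : ℤ) : ZMod (p : ℕ)) = a p).card

/-- the partial products of the singular series of the system `f` -/
noncomputable def series {g : ℕ} (f : Fin g → ℤ[X]) (a : (p : Nat.Primes) → ZMod (p : ℕ)) (z : ℕ) : ℝ :=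
  ∏ p ∈ primes 1 z, (1 - (nu f a p : ℝ) / (p : ℕ)) / (1 - 1 / ((p : ℕ) : ℝ)) ^ g

/-- the system `f` has no local obstruction: for every prime `p` some integer `z` has all values
`f i z` outside the class `a p` -/
def Free {g : ℕ} (a : (p : Nat.Primes) → ZMod (p : ℕ)) (f : Fin g → ℤ[X]) : Prop :=
  ∀ p : Nat.Primes, ∃ z : ℤ, ∀ i, (((f i).eval z : ℤ) : ZMod (p : ℕ)) ≠ a p

open Classical in
/-- the number of `1 ≤ n ≤ x` for which all values `f i n` are in `R` -/
noncomputable def count {g : ℕ} (f : Fin g → ℤ[X]) (a : (p : Nat.Primes) → ZMod (p : ℕ)) (x : ℕ) : ℕ :=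
  ((Finset.Icc 1 x).filter fun n : ℕ => ∀ i, ∃ r ∈ R a, (r : ℤ) = (f i).eval (n : ℤ)).card

/-- the sum of `∏_i 1 / log (f i n)` over the `1 ≤ n ≤ x` with all `f i n ≥ 8` -/
noncomputable def mainTerm {g : ℕ} (f : Fin g → ℤ[X]) (x : ℕ) : ℝ :=
  ∑ n ∈ (Finset.Icc 1 x).filter fun n : ℕ => ∀ i, 8 ≤ (f i).eval (n : ℤ),
    ∏ i, (1 / Real.log (((f i).eval (n : ℤ) : ℤ) : ℝ))

open Classical in
/-- the number of the `n` with `x < n ≤ x + H` for which all values `f i n` are in `R` -/
noncomputable def countIn {g : ℕ} (f : Fin g → ℤ[X]) (a : (p : Nat.Primes) → ZMod (p : ℕ)) (x H : ℕ) : ℕ :=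
  ((Finset.Ioc x (x + H)).filter fun n : ℕ => ∀ i, ∃ r ∈ R a, (r : ℤ) = (f i).eval (n : ℤ)).card

/-- the sum of `∏_i 1 / log (f i n)` over the `n` with `x < n ≤ x + H` -/
noncomputable def mainTermIn {g : ℕ} (f : Fin g → ℤ[X]) (x H : ℕ) : ℝ :=
  ∑ n ∈ Finset.Ioc x (x + H), ∏ i, (1 / Real.log (((f i).eval (n : ℤ) : ℤ) : ℝ))

/-- the product of `1 - (a w - b | w) / (w - 1)` over the odd primes `w ≤ z` -/
noncomputable def product (b : ℤ) (a : (p : Nat.Primes) → ZMod (p : ℕ)) (z : ℕ) : ℝ :=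
  ∏ w ∈ primes 3 z, (1 - ((quadraticChar (ZMod (w : ℕ)) (a w - (b : ZMod (w : ℕ))) : ℤ) : ℝ) / ((w : ℕ) - 1))

open Classical in
/-- the number of `1 ≤ n ≤ N` with `n ^ 2 + b ∈ R` -/
noncomputable def P (b : ℤ) (a : (p : Nat.Primes) → ZMod (p : ℕ)) (N : ℕ) : ℕ :=
  ((Finset.Icc 1 N).filter fun n : ℕ => ∃ r ∈ R a, (r : ℤ) = (n : ℤ) ^ 2 + b).card

/-! ### the comparison with the library -/

theorem series_eq {g : ℕ} (f : Fin g → ℤ[X]) (a : (p : Nat.Primes) → ZMod (p : ℕ)) (z : ℕ) :
    series f a z = Pool.Agent.W2helper64.BH.PP f a z / Pool.Agent.W2helper64.RS.V z ^ g := by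
  rw [Pool.Agent.W2helper64.BH.PP_div]
  unfold series
  refine Finset.prod_congr ?_ fun p _ => ?_
  · ext p
    rw [Pool.Agent.W2helper64.BH.mem_Pr]
    have h : p ∈ primes 1 z ↔ (p : ℕ) ∈ Finset.Icc 1 z := Finset.mem_subtype
    rw [h, Finset.mem_Icc]
    omega
  · unfold Pool.Agent.W2helper64.BH.FF
    rw [Pool.Agent.W2helper64.BH.nuB_eq]
    congr 4
    unfold nu Pool.Agent.W2helper64.BH.nuR
    congr 1
    ext m
    rw [Pool.Agent.W2helper64.RK.mf', Pool.Agent.W2helper64.RK.mf', Pool.Agent.W2helper64.BH.mem_Im]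

theorem nu_lt_iff {g : ℕ} (f : Fin g → ℤ[X]) (a : (p : Nat.Primes) → ZMod (p : ℕ)) (p : Nat.Primes) :
    nu f a p < (p : ℕ) ↔ ∃ z : ℤ, ∀ i, (((f i).eval z : ℤ) : ZMod (p : ℕ)) ≠ a p := by
  classical
  constructor
  · intro h
    by_contra hcon
    push Not at hcon
    have : nu f a p = (p : ℕ) := by
      unfold nu
      have h1 : (Finset.range (p : ℕ)).filter (fun m : ℕ => ∃ i, (((f i).eval (m : ℤ) : ℤ) : ZMod (p : ℕ)) = a p) =
          Finset.range (p : ℕ) := Finset.filter_true_of_mem fun m _ => hcon (m : ℤ)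
      have h2 := congrArg Finset.card h1
      rw [Finset.card_range] at h2
      refine Eq.trans ?_ h2
      congr
    omega
  · rintro ⟨z, hz⟩
    unfold nu
    have hp0 : (0 : ℤ) < (p : ℕ) := by exact_mod_cast p.2.pos
    have hm0 := Int.emod_nonneg z hp0.ne'
    have hm1 := Int.emod_lt_of_pos z hp0
    set m : ℕ := (z % ((p : ℕ) : ℤ)).toNat with hm
    have hmz : (m : ℤ) = z % ((p : ℕ) : ℤ) := Int.toNat_of_nonneg hm0
    have hmp : m < (p : ℕ) := by omega
    have hval : ∀ i, (((f i).eval (m : ℤ) : ℤ) : ZMod (p : ℕ)) ≠ a p := by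
      intro i h
      apply hz i
      rw [← h, ZMod.intCast_eq_intCast_iff]
      have h1 : (z : ℤ) ≡ (m : ℤ) [ZMOD ((p : ℕ) : ℤ)] := by
        rw [hmz]
        exact (Int.mod_modEq z _).symm
      have h2 : (z : ℤ) - m ∣ (f i).eval z - (f i).eval (m : ℤ) := sub_dvd_eval_sub _ _ _
      have h3 : (((p : ℕ) : ℤ)) ∣ (m : ℤ) - z := h1.dvd
      have h4 : (((p : ℕ) : ℤ)) ∣ (z : ℤ) - m := by
        rw [← neg_sub]; exact h3.neg_right
      exact (Int.modEq_iff_dvd.mpr (by
        rw [← neg_sub]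
        exact (h4.trans h2).neg_right))
    refine lt_of_lt_of_eq (Finset.card_lt_card ⟨Finset.filter_subset _ _, fun hsub => ?_⟩) (Finset.card_range _)
    have := hsub (Finset.mem_range.mpr hmp)
    obtain ⟨i, hi⟩ := (Pool.Agent.W2helper64.RK.mf'.mp this).2
    exact hval i hi

theorem general : ∀ᵐ a ∂law, ∀ (g : ℕ) (f : Fin g → ℤ[X]), Function.Injective f →
    (∀ i, 0 < (f i).natDegree ∧ 0 < (f i).leadingCoeff) →
      ∃ S : ℝ, 0 ≤ S ∧ Tendsto (series f a) atTop (𝓝 S) ∧ (0 < S ↔ Free a f) ∧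
        (∀ ε : ℝ, 0 < ε → (fun x : ℕ => (count f a x : ℝ) - S * mainTerm f x) =O[atTop]
          fun x : ℕ => (x : ℝ) ^ (1 / 2 + ε)) ∧
        ∀ M U : ℕ, ∀ᶠ x : ℕ in atTop, ∀ H : ℕ, H ≤ x → Real.log x ≤ Real.log H ^ M →
          |(countIn f a x H : ℝ) - S * mainTermIn f x H| ≤ H / Real.log x ^ U := by
  show ∀ᵐ a ∂Pool.Agent.W2helper64.RS.law, _
  filter_upwards [Pool.Agent.W2helper64.BQ.ae_final3, Pool.Agent.W2helper64.SI.ae_SI] with a ha hb g f hinj hf
  obtain ⟨S, h1, h2, h3, h4⟩ := ha g f hinj (fun i => (hf i).1) (fun i => (hf i).2)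
  obtain ⟨S', -, k2, -, k4⟩ := hb g f hinj (fun i => (hf i).1) (fun i => (hf i).2)
  have hSS : S' = S := tendsto_nhds_unique k2 h2
  rw [hSS] at k4
  have k5 : ∀ x H : ℕ, countIn f a x H = Pool.Agent.W2helper64.SI.cntW f a x H := by
    intro x H
    unfold countIn Pool.Agent.W2helper64.SI.cntW
    congr 1
    ext n
    rw [Pool.Agent.W2helper64.RK.mf', Pool.Agent.W2helper64.RK.mf']
    rfl
  have h5 : ∀ x : ℕ, count f a x = Pool.Agent.W2helper64.BH.cnt f a x := by
    intro x
    unfold count Pool.Agent.W2helper64.BH.cnt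
    congr 1
    ext n
    rw [Pool.Agent.W2helper64.RK.mf', Pool.Agent.W2helper64.RK.mf']
    rfl
  have h6 : ∀ x : ℕ, mainTerm f x = Pool.Agent.W2helper64.BH.HH f x := by
    intro x
    unfold mainTerm Pool.Agent.W2helper64.BH.HH
    refine Finset.sum_congr ?_ fun _ _ => rfl
    ext n
    rw [Pool.Agent.W2helper64.RK.mf', Pool.Agent.W2helper64.RK.mf']
  simp only [h5, h6, k5]
  refine ⟨S, h1, ?_, ?_, h4, fun M U => k4 M U⟩
  · refine h2.congr fun z => (series_eq f a z).symm
  · rw [h3]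
    refine forall_congr' fun p => ?_
    rw [← nu_lt_iff, Pool.Agent.W2helper64.BH.nuB_eq]
    have : Pool.Agent.W2helper64.BH.nuR f (p : ℕ) (a p) = nu f a p := by
      unfold nu Pool.Agent.W2helper64.BH.nuR
      congr 1
      ext m
      rw [Pool.Agent.W2helper64.RK.mf', Pool.Agent.W2helper64.RK.mf', Pool.Agent.W2helper64.BH.mem_Im]
    rw [this]

/-! ### the polynomials `n ^ 2 + b` -/

/-- the system consisting of `X ^ 2 + b` -/
noncomputable def quad (b : ℤ) : Fin 1 → ℤ[X] := fun _ => X ^ 2 + C b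

theorem quad_eval (b : ℤ) (i : Fin 1) (z : ℤ) : (quad b i).eval z = z ^ 2 + b := by
  simp [quad]

theorem quad_deg (b : ℤ) (i : Fin 1) : 0 < (quad b i).natDegree ∧ 0 < (quad b i).leadingCoeff := by
  unfold quad
  have h1 : (X ^ 2 + C b : ℤ[X]).natDegree = 2 := natDegree_X_pow_add_C
  have h2 : (X ^ 2 + C b : ℤ[X]).leadingCoeff = 1 := leadingCoeff_X_pow_add_C (by norm_num)
  rw [h1, h2]
  norm_num

theorem nu_quad (b : ℤ) (a : (p : Nat.Primes) → ZMod (p : ℕ)) (p : Nat.Primes) :
    nu (quad b) a p = ((Finset.range (p : ℕ)).filter fun m : ℕ =>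
      ((m : ℕ) : ZMod (p : ℕ)) ^ 2 = a p - (b : ZMod (p : ℕ))).card := by
  unfold nu
  congr 1
  ext m
  rw [Pool.Agent.W2helper64.RK.mf', Pool.Agent.W2helper64.RK.mf']
  refine and_congr_right fun _ => ?_
  constructor
  · rintro ⟨i, hi⟩
    rw [quad_eval] at hi
    push_cast at hi
    rw [← hi]
    ring
  · intro h
    refine ⟨0, ?_⟩
    rw [quad_eval]
    push_cast
    rw [h]
    ring

theorem nu_quad_two (b : ℤ) (a : (p : Nat.Primes) → ZMod (p : ℕ)) (p : Nat.Primes) (hp : (p : ℕ) = 2) :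
    nu (quad b) a p = 1 := by
  rw [nu_quad]
  obtain ⟨p, hpp⟩ := p
  have hp' : p = 2 := hp
  subst hp'
  have key : ∀ c : ZMod 2, ((Finset.range 2).filter fun m : ℕ => ((m : ℕ) : ZMod 2) ^ 2 = c).card = 1 := by
    decide
  exact key (a ⟨2, hpp⟩ - ((b : ℤ) : ZMod 2))

theorem nu_quad_odd (b : ℤ) (a : (p : Nat.Primes) → ZMod (p : ℕ)) (p : Nat.Primes) (hp : (p : ℕ) ≠ 2) :
    (nu (quad b) a p : ℤ) = quadraticChar (ZMod (p : ℕ)) (a p - (b : ZMod (p : ℕ))) + 1 := by
  classical
  have hchar : ringChar (ZMod (p : ℕ)) ≠ 2 := by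
    rw [ZMod.ringChar_zmod_n]
    exact hp
  have h := quadraticChar_card_sqrts hchar (a p - (b : ZMod (p : ℕ)))
  rw [← h, nu_quad]
  congr 1
  refine Finset.card_bij (fun m _ => ((m : ℕ) : ZMod (p : ℕ))) ?_ ?_ ?_
  · intro m hm
    rw [Finset.mem_filter] at hm
    rw [Set.mem_toFinset]
    exact hm.2
  · intro m hm l hl hml
    rw [Finset.mem_filter, Finset.mem_range] at hm hl
    rw [ZMod.natCast_eq_natCast_iff] at hml
    have h3 : m % (p : ℕ) = l % (p : ℕ) := hml
    rwa [Nat.mod_eq_of_lt hm.1, Nat.mod_eq_of_lt hl.1] at h3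
  · intro x hx
    rw [Set.mem_toFinset] at hx
    have : NeZero (p : ℕ) := ⟨p.2.ne_zero⟩
    refine ⟨x.val, ?_, ?_⟩
    · rw [Finset.mem_filter, Finset.mem_range]
      refine ⟨ZMod.val_lt x, ?_⟩
      rw [ZMod.natCast_val, ZMod.cast_id', id]
      exact hx
    · rw [ZMod.natCast_val, ZMod.cast_id', id]

theorem series_quad (b : ℤ) (a : (p : Nat.Primes) → ZMod (p : ℕ)) (z : ℕ) (hz : 2 ≤ z) :
    series (quad b) a z = product b a z := by
  classical
  unfold series product
  have hmem : ∀ (m : ℕ) (p : Nat.Primes), p ∈ primes m z ↔ m ≤ (p : ℕ) ∧ (p : ℕ) ≤ z := by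
    intro m p
    have h : p ∈ primes m z ↔ (p : ℕ) ∈ Finset.Icc m z := Finset.mem_subtype
    rw [h, Finset.mem_Icc]
  set q2 : Nat.Primes := ⟨2, Nat.prime_two⟩ with hq2
  have hins : primes 1 z = insert q2 (primes 3 z) := by
    ext p
    rw [Finset.mem_insert, hmem, hmem]
    have h2 : 2 ≤ (p : ℕ) := p.2.two_le
    constructor
    · rintro ⟨-, h3⟩
      rcases h2.eq_or_lt with h4 | h4
      · exact Or.inl (Subtype.ext h4.symm)
      · exact Or.inr ⟨h4, h3⟩
    · rintro (rfl | h3)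
      · exact ⟨by norm_num, hz⟩
      · exact ⟨by omega, h3.2⟩
  have hnot : q2 ∉ primes 3 z := by
    rw [hmem]
    intro h
    have : (3 : ℕ) ≤ 2 := h.1
    omega
  rw [hins, Finset.prod_insert hnot]
  have e2 : (1 - (nu (quad b) a q2 : ℝ) / ((q2 : ℕ) : ℝ)) / (1 - 1 / ((q2 : ℕ) : ℝ)) ^ 1 = 1 := by
    rw [nu_quad_two b a q2 rfl]
    have : ((q2 : ℕ) : ℝ) = 2 := by
      rw [hq2]
      norm_num
    rw [this]
    norm_num
  rw [e2, one_mul]
  refine Finset.prod_congr rfl fun p hp => ?_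
  rw [hmem] at hp
  have hodd := nu_quad_odd b a p (by omega)
  have hp3 : (3 : ℝ) ≤ ((p : ℕ) : ℝ) := by exact_mod_cast hp.1
  have hν : (nu (quad b) a p : ℝ) =
      ((quadraticChar (ZMod (p : ℕ)) (a p - (b : ZMod (p : ℕ))) : ℤ) : ℝ) + 1 := by
    exact_mod_cast hodd
  rw [hν, pow_one]
  have h1 : ((p : ℕ) : ℝ) ≠ 0 := by linarith
  have h2 : ((p : ℕ) : ℝ) - 1 ≠ 0 := by linarith
  field_simp
  ring

theorem quad_free (b : ℤ) (a : (p : Nat.Primes) → ZMod (p : ℕ)) : Free a (quad b) := by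
  intro p
  rw [← nu_lt_iff]
  by_cases hp : (p : ℕ) = 2
  · rw [nu_quad_two b a p hp]
    omega
  · have h1 := nu_quad_odd b a p hp
    have h2 : quadraticChar (ZMod (p : ℕ)) (a p - (b : ZMod (p : ℕ))) ≤ 1 := by
      rcases quadraticChar_isQuadratic (ZMod (p : ℕ)) (a p - (b : ZMod (p : ℕ))) with h | h | h <;> rw [h] <;> norm_num
    have h3 : 2 < (p : ℕ) := lt_of_le_of_ne p.2.two_le (Ne.symm hp)
    have h4 : (nu (quad b) a p : ℤ) < ((p : ℕ) : ℤ) := by
      have : (2 : ℤ) < ((p : ℕ) : ℤ) := by exact_mod_cast h3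
      linarith
    exact_mod_cast h4

theorem isBigO_const (C : ℝ) {ε : ℝ} (hε : 0 < ε) :
    (fun _ : ℕ => C) =O[atTop] fun x : ℕ => (x : ℝ) ^ (1 / 2 + ε) := by
  apply Asymptotics.IsBigO.of_bound |C|
  filter_upwards [eventually_ge_atTop 1] with x hx
  have h3 : 1 ≤ (x : ℝ) ^ (1 / 2 + ε) := Real.one_le_rpow (by exact_mod_cast hx) (by linarith)
  rw [Real.norm_eq_abs, Real.norm_eq_abs, abs_of_nonneg (zero_le_one.trans h3)]
  exact le_mul_of_one_le_right (abs_nonneg _) h3

/-- Almost surely, for all integers `b`, the product of `1 - (a w - b | w) / (w - 1)` over the odd primes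
`w` (in increasing order) converges to some `h > 0`, and the number of `n ≤ N` with `n ^ 2 + b ∈ R` is
`(h / 2) ∫_2^N dt / log t + O(N ^ (1 / 2 + ε))` for every `ε > 0`; and for all finite systems `f` of
distinct nonconstant integer polynomials with positive leading coefficients the partial products
`∏_(p ≤ z) (1 - ν_p / p) / (1 - 1 / p) ^ g` converge to some `S ≥ 0`, which is positive if and only if `f`
has no local obstruction, and the number of `n ≤ x` with `f i n ∈ R` for all `i` is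
`S ∑_(n ≤ x) ∏_i 1 / log (f i n) + O(x ^ (1 / 2 + ε))` for every `ε > 0`; moreover, for all `M`, `U`, all
large `x` and all `H ≤ x` with `log x ≤ (log H) ^ M` (that is `H ≥ exp ((log x) ^ (1 / M))`) the number of the
`n` with `x < n ≤ x + H` and `f i n ∈ R` for all `i` differs from `S ∑_(x < n ≤ x + H) ∏_i 1 / log (f i n)` by
at most `H / (log x) ^ U`. -/
theorem result : ∀ᵐ a ∂law,
    (∀ b : ℤ, ∃ h : ℝ, 0 < h ∧ Tendsto (product b a) atTop (𝓝 h) ∧
      ∀ ε : ℝ, 0 < ε → (fun N : ℕ => (P b a N : ℝ) - h / 2 * ∫ t in (2 : ℝ)..(N : ℝ), 1 / Real.log t) =O[atTop]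
        fun N : ℕ => (N : ℝ) ^ (1 / 2 + ε)) ∧
    ∀ (g : ℕ) (f : Fin g → ℤ[X]), Function.Injective f →
      (∀ i, 0 < (f i).natDegree ∧ 0 < (f i).leadingCoeff) →
        ∃ S : ℝ, 0 ≤ S ∧ Tendsto (series f a) atTop (𝓝 S) ∧ (0 < S ↔ Free a f) ∧
          (∀ ε : ℝ, 0 < ε → (fun x : ℕ => (count f a x : ℝ) - S * mainTerm f x) =O[atTop]
            fun x : ℕ => (x : ℝ) ^ (1 / 2 + ε)) ∧
          ∀ M U : ℕ, ∀ᶠ x : ℕ in atTop, ∀ H : ℕ, H ≤ x → Real.log x ≤ Real.log H ^ M →
            |(countIn f a x H : ℝ) - S * mainTermIn f x H| ≤ H / Real.log x ^ U := by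
  filter_upwards [general] with a ha
  refine ⟨fun b => ?_, ha⟩
  obtain ⟨S, hS0, hS1, hS2, hS3, -⟩ := ha 1 (quad b) (fun i j _ => Subsingleton.elim i j) (quad_deg b)
  have hSpos : 0 < S := hS2.mpr (quad_free b a)
  refine ⟨S, hSpos, ?_, fun ε hε => ?_⟩
  · refine hS1.congr' ?_
    filter_upwards [eventually_ge_atTop 2] with z hz
    exact series_quad b a z hz
  · have h1 := hS3 ε hε
    obtain ⟨C, hC⟩ := Pool.Agent.W2helper64.BH.li_close b
    have hP : ∀ N : ℕ, count (quad b) a N = P b a N := by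
      intro N
      unfold count P
      congr 1
      ext n
      rw [Pool.Agent.W2helper64.RK.mf', Pool.Agent.W2helper64.RK.mf']
      refine and_congr_right fun _ => ?_
      constructor
      · intro h
        obtain ⟨r, hr, he⟩ := h 0
        rw [quad_eval] at he
        exact ⟨r, hr, he⟩
      · rintro ⟨r, hr, he⟩ i
        refine ⟨r, hr, ?_⟩
        rw [quad_eval]
        exact he
    have hM : ∀ N : ℕ, mainTerm (quad b) N =
        ∑ n ∈ @Finset.filter ℕ (fun n : ℕ => 8 ≤ (n : ℤ) ^ 2 + b) (Classical.decPred _) (Finset.Icc 1 N),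
          1 / Real.log (((n : ℤ) ^ 2 + b : ℤ) : ℝ) := by
      intro N
      unfold mainTerm
      refine Finset.sum_congr ?_ fun n _ => ?_
      · ext n
        rw [Pool.Agent.W2helper64.RK.mf', Pool.Agent.W2helper64.RK.mf']
        refine and_congr_right fun _ => ?_
        constructor
        · intro h
          have := h 0
          rwa [quad_eval] at this
        · intro h i
          rw [quad_eval]
          exact h
      · rw [Fin.prod_univ_one, quad_eval]
    have h2 : (fun N : ℕ => S * mainTerm (quad b) N - S / 2 * ∫ t in (2 : ℝ)..(N : ℝ), 1 / Real.log t) =O[atTop]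
        fun _ : ℕ => S * C := by
      apply Asymptotics.IsBigO.of_bound 1
      filter_upwards [hC] with N hN
      rw [hM N, Real.norm_eq_abs, Real.norm_eq_abs, one_mul]
      set M := ∑ n ∈ @Finset.filter ℕ (fun n : ℕ => 8 ≤ (n : ℤ) ^ 2 + b) (Classical.decPred _) (Finset.Icc 1 N),
          1 / Real.log (((n : ℤ) ^ 2 + b : ℤ) : ℝ)
      set I := ∫ t in (2 : ℝ)..(N : ℝ), 1 / Real.log t
      have e1 : S * M - S / 2 * I = S * (M - 1 / 2 * I) := by ring
      rw [e1, abs_mul, abs_of_pos hSpos]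
      refine le_trans (mul_le_mul_of_nonneg_left hN hSpos.le) (le_abs_self _)
    have h3 := h1.add (h2.trans (isBigO_const (S * C) hε))
    refine h3.congr_left fun N => ?_
    rw [hP N]
    ring

end Pool.Agent.Results.MP_391708_nt.RandomSieveBatemanHorn
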