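import Mathlib
import Pool.Agent.W2helper63.TA.T

/-!
# Primes `n² + a` for almost all `a ≤ A`, `N^(2/3+ε) ≤ A ≤ N`

For every `A` with `N^(2/3 + ε) ≤ A ≤ N` almost all `a ≤ A` have at least `1/4 - η` times the number of the primes
`n² + a`, `n ≤ N`, which Hardy and Littlewood predict, with the constant `h_a` of the problem, and the same holds in all
intervals `u < n ≤ v ≤ N`. The starting theorem `ThinFamilyLowerBound` has the exponent `7/10` (and the constant `3/4`).
The new ingredient is a new set of sieve weights.

Proof. Let `Q = N^(1/3 + e)`, `U = N^(5/6 - e)`, `V = N^(5/6 + 2 e)`. The type II information of the starting theorem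
(for `C ≥ N^(2/3+ε)`) is the range `(U, N^(1 - ε')]` of one of the two cofactors; since `U > Q²`, the weights `μ(d)`,
`d ≤ U`, do not give a minorant here (a product of three primes can have a divisor `≤ U` with two prime factors `> Q`).
Let `g(d) = μ(d)` if `d` has at most one prime factor `> Q`, and `g(d) = 0` otherwise. For `k` of size `N²`
without a small prime factor and without a divisor in `(U, N^(1 - ε')]` (or near `N`) the map `d → d q`, `q ≤ Q` the least
prime factor of `k`, is still an involution of the divisors `d ≤ U` with `g(d) ≠ 0` which changes the sign of `g`. If all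
the prime factors of `k` are `> Q`, there are at most five of them, and the sum of `g(d)` over `d ∣ k`, `d ≤ U`, is `1` minus
the number of the prime factors `≤ U`. The products of two primes `> U` are removed by a type II sum, and two type II sums
in which one variable is a product of two primes `> Q` and the other a prime reduce the loss at the products of three
primes. The result is a function which is `1` at the primes, is `≤ 0` elsewhere, and whose absolute value is at most
`2` at the products of three primes in `(Q, V]`, `1` more at those products `p q r` with `q r ≤ U`, `3` at the products of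
four primes, and `4` at those of five primes `> Q` (`Idn.good`). The whole loss is at most `0.7303` times
the number of the primes: the sum over the products of three primes is estimated by the prime number theorem for the
largest prime and a grid for the pairs of the others (`Cst.pairA`), and the products of `k` primes by an inductive bound
`∑ 1/m ≤ (1 + o(1)) W^k / k!²` for the `m` with `k` prime factors `> N^(1/3)` with the sum of `log (3 log p / log N)`
at most `W` (`Cst.GG_le`), with a tangent line for the logarithm. The type II sums are those of the library project N792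
(a double large sieve over the pairs of a frequency and a cofactor), with the coefficients `g`. The values with a divisor
in `(N^(1 - ε'), N^(1 + ε')]` are bounded by the sieve on average over `a`, now with a bound uniform for the weights `g`
(`Ptq.pt`: the function is bounded by a constant times the number of the divisors, which is then bounded on the rough
values by the constant `D²` on average).
-/

set_option autoImplicit false

namespace Pool.Agent.Results.MP_391708_nt.ThinnerFamilies

open Finset Filter Topology

/-- the number of `1 ≤ n ≤ N` for which `|n² + a|` is a prime -/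
def P (a : ℤ) (N : ℕ) : ℕ := #((Icc 1 N).filter (fun n : ℕ => Nat.Prime ((n : ℤ) ^ 2 + a).natAbs))

/-- the product of `1 - (-a | w) / (w - 1)` over the odd primes `w ≤ X` -/
noncomputable def hprod (a : ℤ) (X : ℕ) : ℝ :=
  ∏ w ∈ (range (X + 1)).filter (fun w => Nat.Prime w ∧ w ≠ 2), (1 - (jacobiSym (-a) w : ℝ) / ((w : ℝ) - 1))

lemma P_sub (a : ℤ) {u v : ℕ} (huv : u ≤ v) : (P a v : ℝ) - P a u =
    (#((Ioc u v).filter (fun n : ℕ => Nat.Prime ((n : ℤ) ^ 2 + a).natAbs)) : ℝ) := by
  have h : P a v = P a u + #((Ioc u v).filter (fun n : ℕ => Nat.Prime ((n : ℤ) ^ 2 + a).natAbs)) := by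
    unfold P
    rw [← card_union_of_disjoint]
    · congr 1
      ext n
      simp only [mem_filter, mem_Icc, mem_Ioc, mem_union]
      constructor
      · rintro ⟨⟨h1, h2⟩, h3⟩
        rcases le_or_gt n u with h | h
        · exact Or.inl ⟨⟨h1, h⟩, h3⟩
        · exact Or.inr ⟨⟨h, h2⟩, h3⟩
      · rintro (⟨⟨h1, h2⟩, h3⟩ | ⟨⟨h1, h2⟩, h3⟩)
        · exact ⟨⟨h1, by omega⟩, h3⟩
        · exact ⟨⟨by omega, h2⟩, h3⟩
    · rw [disjoint_left]
      intro n hn hn'
      rw [mem_filter, mem_Icc] at hn
      rw [mem_filter, mem_Ioc] at hn'
      omega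
  rw [h]
  push_cast
  ring

/-- **A lower bound for the number of the primes `n² + a` for almost all `a ≤ A`, `N^(2/3+ε) ≤ A ≤ N`.**
For all `ε, η > 0`, all large `N` and every `A` with `N^(2/3 + ε) ≤ A ≤ N`, all but at most `η A` of the
`1 ≤ a ≤ A` have the following property: the product `h_a` converges to a number `h > 0`, and for all
`2 ≤ u ≤ v ≤ N` the number `P_a(v) - P_a(u)` is at least
`(1/4) (1/2) h ∫_u^v dt / log t - η (1/2) h ∫_2^N dt / log t`. In particular (`u = 2`, `v = N`)
`P_a(N) ≥ (1/4 - η) (1/2) h ∫_2^N dt / log t`. -/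
theorem result (ε η : ℝ) (hε : 0 < ε) (hη : 0 < η) :
    ∃ N0 : ℕ, ∀ N : ℕ, N0 ≤ N → ∀ A : ℕ, (N : ℝ) ^ (2 / 3 + ε) ≤ A → A ≤ N →
    ∃ Ex ⊆ Icc 1 A, (#Ex : ℝ) ≤ η * A ∧ ∀ a ∈ Icc 1 A, a ∉ Ex →
      ∃ h : ℝ, 0 < h ∧ Tendsto (fun X : ℕ => hprod a X) atTop (𝓝 h) ∧
        ∀ u v : ℕ, 2 ≤ u → u ≤ v → v ≤ N →
          1 / 4 * (1 / 2 * h * ∫ t in (u : ℝ)..(v : ℝ), 1 / Real.log t) -
            η * (1 / 2 * h * ∫ t in (2 : ℝ)..(N : ℝ), 1 / Real.log t) ≤ (P a v : ℝ) - P a u := by
  obtain ⟨N0, h⟩ := Pool.Agent.W2helper63.TA.tq_int ε η hε hη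
  refine ⟨N0, fun N hN A hA1 hA2 => ?_⟩
  obtain ⟨Ex, hE1, hE2, hE3⟩ := h N hN A hA1 hA2
  refine ⟨Ex, hE1, hE2, fun a ha haE => ?_⟩
  obtain ⟨S, hS, hSt, hb⟩ := hE3 a ha haE
  refine ⟨S, hS, hSt, fun u v hu huv hvN => ?_⟩
  rw [P_sub a huv]
  exact hb u v hu huv hvN

end Pool.Agent.Results.MP_391708_nt.ThinnerFamilies
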